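import Pool.Agent.Y206.Q.Stm

set_option autoImplicit false
open scoped LinearAlgebra.Projectivization

/-!
# QG-GRID: a closed set of the Segre quadric is a grid
-/

namespace Pool.Agent.Y689.QG
open Pool.Agent.Y206.Q

/-- the linear map `x ↦ E e s x` -/
noncomputable def EL (e : Fin 2 → Fin 2 → Fin 4 → ℂ) (s : Fin 2 → ℂ) :
    (Fin 2 → ℂ) →ₗ[ℂ] (Fin 4 → ℂ) where
  toFun x := E e s x
  map_add' x y := by
    simp only [E, Pi.add_apply]
    module
  map_smul' c x := by
    simp only [E, Pi.smul_apply, smul_eq_mul, RingHom.id_apply]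
    module

/-- the linear map `x ↦ E e x t` -/
noncomputable def ER (e : Fin 2 → Fin 2 → Fin 4 → ℂ) (t : Fin 2 → ℂ) :
    (Fin 2 → ℂ) →ₗ[ℂ] (Fin 4 → ℂ) where
  toFun x := E e x t
  map_add' x y := by
    simp only [E, Pi.add_apply]
    module
  map_smul' c x := by
    simp only [E, Pi.smul_apply, smul_eq_mul, RingHom.id_apply]
    module

theorem E_zero {e : Fin 2 → Fin 2 → Fin 4 → ℂ} (he : Basis4 e) {c : Fin 2 → Fin 2 → ℂ}
    (h : c 0 0 • e 0 0 + c 0 1 • e 0 1 + c 1 0 • e 1 0 + c 1 1 • e 1 1 = 0) :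
    ∀ i j, c i j = 0 := by
  have h1 := (Fintype.linearIndependent_iff.mp he) (fun p => c p.1 p.2) (by
    rw [Fintype.sum_prod_type]
    simp only [Fin.sum_univ_two]
    rw [← h]
    abel)
  intro i j
  exact h1 (i, j)

theorem E_eq {e : Fin 2 → Fin 2 → Fin 4 → ℂ} (he : Basis4 e) {s t s' t' : Fin 2 → ℂ}
    (h : E e s t = E e s' t') : ∀ i j, s i * t j = s' i * t' j := by
  have h1 := E_zero he (c := fun i j => s i * t j - s' i * t' j) (by
    have h2 : E e s t - E e s' t' = 0 := sub_eq_zero.mpr h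
    rw [← h2]
    simp only [E]
    module)
  intro i j
  exact sub_eq_zero.mp (h1 i j)

theorem ne_cases {s : Fin 2 → ℂ} (hs : s ≠ 0) : ∃ i, s i ≠ 0 := by
  by_contra h
  push Not at h
  exact hs (funext h)

theorem E_ne {e : Fin 2 → Fin 2 → Fin 4 → ℂ} (he : Basis4 e) {s t : Fin 2 → ℂ} (hs : s ≠ 0)
    (ht : t ≠ 0) : E e s t ≠ 0 := by
  intro h
  obtain ⟨i, hi⟩ := ne_cases hs
  obtain ⟨j, hj⟩ := ne_cases ht
  have h0 : E e s t = E e 0 0 := by
    rw [h]
    simp [E]
  have := E_eq he h0 i j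
  simp only [Pi.zero_apply, mul_zero] at this
  exact mul_ne_zero hi hj this

theorem prop_dt {s s' : Fin 2 → ℂ} (h : dt s s' = 0) (hs : s ≠ 0) (hs' : s' ≠ 0) :
    ∃ c : ℂ, c ≠ 0 ∧ s = c • s' := by
  simp only [dt] at h
  have key : ∀ i j, s i * s' j = s j * s' i := by
    intro i j
    fin_cases i <;> fin_cases j
    · ring
    · simp only [Fin.zero_eta, Fin.isValue, Fin.mk_one]
      linear_combination h
    · simp only [Fin.zero_eta, Fin.isValue, Fin.mk_one]
      linear_combination -h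
    · ring
  obtain ⟨i, hi⟩ := ne_cases hs'
  have h1 : s = (s i / s' i) • s' := by
    funext j
    simp only [Pi.smul_apply, smul_eq_mul]
    field_simp
    linear_combination key j i
  refine ⟨s i / s' i, ?_, h1⟩
  intro h0
  rw [h0, zero_smul] at h1
  exact hs h1

theorem dt_smul (c : ℂ) (s : Fin 2 → ℂ) : dt (c • s) s = 0 := by
  simp only [dt, Pi.smul_apply, smul_eq_mul]
  ring

theorem dt_comm0 {s s' : Fin 2 → ℂ} (h : dt s s' = 0) : dt s' s = 0 := by
  simp only [dt] at *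
  linear_combination -h

theorem dt_trans {s s' s'' : Fin 2 → ℂ} (h' : s' ≠ 0) (h1 : dt s s' = 0)
    (h2 : dt s' s'' = 0) : dt s s'' = 0 := by
  simp only [dt] at *
  obtain ⟨i, hi⟩ := ne_cases h'
  apply mul_left_cancel₀ hi
  fin_cases i
  · simp only [Fin.zero_eta, Fin.isValue]
    linear_combination s 0 * h2 + s'' 0 * h1
  · simp only [Fin.mk_one, Fin.isValue]
    linear_combination s 1 * h2 + s'' 1 * h1

theorem E_smul (e : Fin 2 → Fin 2 → Fin 4 → ℂ) (c d : ℂ) (s t : Fin 2 → ℂ) :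
    E e (c • s) (d • t) = (c * d) • E e s t := by
  simp only [E, Pi.smul_apply, smul_eq_mul]
  module

theorem span_eq (e : Fin 2 → Fin 2 → Fin 4 → ℂ) {s t s' t' : Fin 2 → ℂ}
    (hs : s ≠ 0) (ht : t ≠ 0) (hs' : s' ≠ 0) (ht' : t' ≠ 0) (h1 : dt s s' = 0)
    (h2 : dt t t' = 0) :
    Submodule.span ℂ {E e s t} = Submodule.span ℂ {E e s' t'} := by
  obtain ⟨c, hc, rfl⟩ := prop_dt h1 hs hs'
  obtain ⟨d, hd, rfl⟩ := prop_dt h2 ht ht'
  rw [E_smul]
  exact Submodule.span_singleton_smul_eq (IsUnit.mk0 _ (mul_ne_zero hc hd)) _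

theorem EL_inj {e : Fin 2 → Fin 2 → Fin 4 → ℂ} (he : Basis4 e) {s : Fin 2 → ℂ} (hs : s ≠ 0) :
    Function.Injective (EL e s) := by
  intro x y hxy
  have h1 := E_eq he (show E e s x = E e s y from hxy)
  obtain ⟨i, hi⟩ := ne_cases hs
  funext j
  exact mul_left_cancel₀ hi (h1 i j)

theorem ER_inj {e : Fin 2 → Fin 2 → Fin 4 → ℂ} (he : Basis4 e) {t : Fin 2 → ℂ} (ht : t ≠ 0) :
    Function.Injective (ER e t) := by
  intro x y hxy
  have h1 := E_eq he (show E e x t = E e y t from hxy)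
  obtain ⟨j, hj⟩ := ne_cases ht
  funext i
  exact mul_right_cancel₀ hj (h1 i j)

theorem EL_rank {e : Fin 2 → Fin 2 → Fin 4 → ℂ} (he : Basis4 e) {s : Fin 2 → ℂ} (hs : s ≠ 0) :
    Module.finrank ℂ (LinearMap.range (EL e s)) = 2 := by
  rw [LinearMap.finrank_range_of_inj (EL_inj he hs)]
  simp

theorem ER_rank {e : Fin 2 → Fin 2 → Fin 4 → ℂ} (he : Basis4 e) {t : Fin 2 → ℂ} (ht : t ≠ 0) :
    Module.finrank ℂ (LinearMap.range (ER e t)) = 2 := by
  rw [LinearMap.finrank_range_of_inj (ER_inj he ht)]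
  simp

theorem EL_disj {e : Fin 2 → Fin 2 → Fin 4 → ℂ} (he : Basis4 e) {s s' : Fin 2 → ℂ}
    (h : dt s s' ≠ 0) : LinearMap.range (EL e s) ⊓ LinearMap.range (EL e s') = ⊥ := by
  rw [eq_bot_iff]
  rintro v ⟨⟨x, hx⟩, ⟨y, hy⟩⟩
  have h1 := E_eq he (show E e s x = E e s' y from hx.trans hy.symm)
  have h2 : x = 0 := by
    funext j
    have h3 : dt s s' * x j = 0 := by
      simp only [dt]
      linear_combination s' 1 * h1 0 j - s' 0 * h1 1 j
    exact (mul_eq_zero.mp h3).resolve_left h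
  rw [Submodule.mem_bot, ← hx, h2, map_zero]

theorem ER_disj {e : Fin 2 → Fin 2 → Fin 4 → ℂ} (he : Basis4 e) {t t' : Fin 2 → ℂ}
    (h : dt t t' ≠ 0) : LinearMap.range (ER e t) ⊓ LinearMap.range (ER e t') = ⊥ := by
  rw [eq_bot_iff]
  rintro v ⟨⟨x, hx⟩, ⟨y, hy⟩⟩
  have h1 := E_eq he (show E e x t = E e y t' from hx.trans hy.symm)
  have h2 : x = 0 := by
    funext i
    have h3 : dt t t' * x i = 0 := by
      simp only [dt]
      linear_combination t' 1 * h1 i 0 - t' 0 * h1 i 1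
    exact (mul_eq_zero.mp h3).resolve_left h
  rw [Submodule.mem_bot, ← hx, h2, map_zero]

theorem inter {e : Fin 2 → Fin 2 → Fin 4 → ℂ} (he : Basis4 e) {s t : Fin 2 → ℂ} (hs : s ≠ 0) :
    LinearMap.range (EL e s) ⊓ LinearMap.range (ER e t) = Submodule.span ℂ {E e s t} := by
  apply le_antisymm
  · rintro v ⟨⟨x, hx⟩, ⟨y, hy⟩⟩
    have h1 := E_eq he (show E e s x = E e y t from hx.trans hy.symm)
    obtain ⟨i, hi⟩ := ne_cases hs
    have h2 : x = (y i / s i) • t := by
      funext j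
      simp only [Pi.smul_apply, smul_eq_mul]
      field_simp
      linear_combination h1 i j
    rw [Submodule.mem_span_singleton]
    refine ⟨y i / s i, ?_⟩
    have h3 : EL e s ((y i / s i) • t) = (y i / s i) • EL e s t := map_smul _ _ _
    rw [← hx, h2]
    exact h3.symm
  · rw [Submodule.span_singleton_le_iff_mem]
    exact ⟨⟨t, rfl⟩, ⟨s, rfl⟩⟩

/-- the equivalence relation of proportionality -/
def sr {K : Type} (s : K → Fin 2 → ℂ) (hs : ∀ k, s k ≠ 0) : Setoid K where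
  r k l := dt (s k) (s l) = 0
  iseqv :=
    { refl := fun k => by simp only [dt]; ring
      symm := fun h => dt_comm0 h
      trans := fun {_ l _} h1 h2 => dt_trans (hs l) h1 h2 }

/-- representatives of the classes -/
theorem reps {K : Type} [Finite K] (s : K → Fin 2 → ℂ) (hs : ∀ k, s k ≠ 0) :
    ∃ (a : ℕ) (r : Fin a → K), (∀ i i', i ≠ i' → dt (s (r i)) (s (r i')) ≠ 0) ∧
      ∀ k, ∃ i, dt (s k) (s (r i)) = 0 := by
  classical
  have hfin : Finite (Quotient (sr s hs)) := Quotient.finite _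
  obtain ⟨a, ⟨φ⟩⟩ := Finite.exists_equiv_fin (Quotient (sr s hs))
  refine ⟨a, fun i => (φ.symm i).out, ?_, ?_⟩
  · intro i i' hii h0
    apply hii
    apply φ.symm.injective
    have h1 : (Quotient.mk (sr s hs) (φ.symm i).out) = Quotient.mk (sr s hs) (φ.symm i').out :=
      Quotient.sound h0
    rwa [Quotient.out_eq, Quotient.out_eq] at h1
  · intro k
    refine ⟨φ (Quotient.mk (sr s hs) k), ?_⟩
    simp only [Equiv.symm_apply_apply]
    have h1 : (sr s hs).r (Quotient.mk (sr s hs) k).out k := Quotient.mk_out (s := sr s hs) k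
    exact dt_comm0 h1

theorem grid : S_GRID := by
  intro e he Z s t hP hrep hcl
  obtain ⟨hs, ht, -⟩ := hP
  obtain ⟨a, r, hr1, hr2⟩ := reps s hs
  obtain ⟨b, q, hq1, hq2⟩ := reps t ht
  refine ⟨a, b, fun i => LinearMap.range (EL e (s (r i))), fun j => LinearMap.range (ER e (t (q j))),
    fun i => EL_rank he (hs _), fun j => ER_rank he (ht _), fun i i' h => EL_disj he (hr1 i i' h),
    fun j j' h => ER_disj he (hq1 j j' h), ?_, ?_⟩
  · intro i j
    rw [inter he (hs _)]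
    exact finrank_span_singleton (E_ne he (hs _) (ht _))
  · intro z
    constructor
    · intro hz
      obtain ⟨i, hi⟩ := hr2 ⟨z, hz⟩
      obtain ⟨j, hj⟩ := hq2 ⟨z, hz⟩
      refine ⟨i, j, ?_⟩
      rw [inter he (hs _), Projectivization.submodule_eq, hrep ⟨z, hz⟩]
      exact span_eq e (hs _) (ht _) (hs _) (ht _) hi hj
    · rintro ⟨i, j, h⟩
      rw [inter he (hs _)] at h
      obtain ⟨z', h1, h2⟩ := hcl (r i) (q j)
      have h3 : z'.1.submodule = z.submodule := by
        rw [h, Projectivization.submodule_eq, hrep z']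
        exact span_eq e (hs _) (ht _) (hs _) (ht _) h1 h2
      have h4 : z'.1 = z := Projectivization.submodule_injective h3
      rw [← h4]
      exact z'.2

end Pool.Agent.Y689.QG
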